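import Mathlib

set_option autoImplicit false

namespace Pool.Agent.Results.MP_27f3b7_al.Yes

universe u

lemma iter {G : Type u} [Group G] {α : G →* G} {A : G → G} (h : ∀ x g, A (x * g) = A x * α g)
    (k : ℕ) (x g : G) : A^[k] (x * g) = A^[k] x * α^[k] g := by
  induction k with
  | zero => rfl
  | succ k ih => simp only [Function.iterate_succ_apply', ih, h]

lemma inv_iter {G : Type u} {A : G → G} {Y : Set G} (h : ∀ y ∈ Y, A y ∈ Y) (k : ℕ) :
    ∀ y ∈ Y, A^[k] y ∈ Y := fun y hy => by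
  induction k with
  | zero => exact hy
  | succ k ih => rw [Function.iterate_succ_apply']; exact h _ ih

/-- fixed points of an iterate -/
def fx {G : Type u} [Group G] (α : G →* G) (k : ℕ) : Subgroup G where
  carrier := {g | α^[k] g = g}
  mul_mem' := fun {a b} h k => by simp_all
  one_mem' := by simp
  inv_mem' := fun {a} h => by simp_all

lemma fx_inv {G : Type u} [Group G] (α : G →* G) (k : ℕ) : ∀ g ∈ fx α k, α g ∈ fx α k :=
  fun g (hg : α^[k] g = g) => show α^[k] (α g) = α g by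
    rw [← Function.iterate_succ_apply, Function.iterate_succ_apply', hg]

lemma core (p : ℕ) [Fact p.Prime] (n : ℕ) : ∀ (G : Type u) [Group G] [Finite G], IsPGroup p G →
    Nat.card G < n → ∀ (α : G →* G) (A : G → G), Function.Surjective α →
    (∀ x g, A (x * g) = A x * α g) →
    ∀ (Y : Set G) (M : Subgroup G), (∀ g ∈ M, α g ∈ M) → (∀ y ∈ Y, A y ∈ Y) →
    (∀ a ∈ Y, ∀ b ∈ Y, a⁻¹ * b ∈ M) → (Y.Nonempty → M ≠ ⊤) →
    ∃ x ∉ Y, ∀ k, A^[k] x = x → ∃ j, ∀ g, A^[k * p ^ j] g = g := by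
  induction n with
  | zero => simp
  | succ n ih =>
  intro G _ _ hG hn α A hs hA Y M hM hY hYM hne
  cases subsingleton_or_nontrivial G with
  | inl _ => exact ⟨1, fun h => hne ⟨1, h⟩ (Subsingleton.elim _ _),
      fun _ _ => ⟨0, fun _ => Subsingleton.elim _ _⟩⟩
  | inr _ =>
  obtain ⟨N, ⟨N1, N2, N3⟩, hmin⟩ := WellFounded.has_min (wellFounded_lt (α := Subgroup G))
    {N | N ≠ ⊥ ∧ N ≤ Subgroup.center G ∧ ∀ g ∈ N, α g ∈ N}
    ⟨Subgroup.center G, (Subgroup.nontrivial_iff_ne_bot _).1 hG.center_nontrivial, le_rfl,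
      fun g hg => Subgroup.mem_center_iff.2 fun x => by
        obtain ⟨x, rfl⟩ := hs x
        rw [← map_mul, Subgroup.mem_center_iff.1 hg, map_mul]⟩
  have hmin' : ∀ K : Subgroup G, (∀ g ∈ N, g ∈ K → α g ∈ K) → ∀ a ∈ N, a ∈ K → a ≠ 1 → N ≤ K :=
    fun K hK a ha hk h1 => by
      by_contra c
      exact hmin (N ⊓ K) ⟨fun e => h1 (Subgroup.mem_bot.1 (e ▸ ⟨ha, hk⟩)), inf_le_left.trans N2,
        fun g hg => ⟨N3 g hg.1, hK g hg.1 hg.2⟩⟩ (inf_lt_left.2 c)
  have : N.Normal := ⟨fun a h g => by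
    rwa [Subgroup.mem_center_iff.1 (N2 h) g, mul_inv_cancel_right]⟩
  let π := QuotientGroup.mk' N
  let β := QuotientGroup.map N N α N3
  let B : G ⧸ N → G ⧸ N := fun q => π (A 1) * β q
  have hB : ∀ g, B (π g) = π (A g) := fun g => by
    nth_rewrite 2 [← one_mul g]; rw [hA, map_mul]; rfl
  have hBk : ∀ k g, B^[k] (π g) = π (A^[k] g) := fun k g =>
    ((Function.Semiconj.iterate_right (f := π) (fun g => (hB g).symm) k) g).symm
  have hπ : ∀ a b, π a = π b ↔ a⁻¹ * b ∈ N := fun a b => QuotientGroup.eq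
  have sπ := QuotientGroup.mk'_surjective N
  obtain ⟨x, hx, hk⟩ := ih (G ⧸ N) (hG.to_quotient N) (by
      have h1 := Subgroup.card_eq_card_quotient_mul_card_subgroup N
      have h2 := (Subgroup.one_lt_card_iff_ne_bot N).2 N1
      have h3 : 0 < Nat.card (G ⧸ N) := Nat.card_pos
      nlinarith) β B
    (fun q => by
      obtain ⟨g, rfl⟩ := sπ q
      obtain ⟨g, rfl⟩ := hs g
      exact ⟨π g, rfl⟩) (fun x g => by simp only [B, map_mul, mul_assoc])
    {q | M.map π ≠ ⊤ ∧ q ∈ π '' Y} (M.map π)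
    (by rintro _ ⟨g, hg, rfl⟩; exact ⟨_, hM g hg, rfl⟩)
    (by rintro _ ⟨h, g, hg, rfl⟩; exact ⟨h, _, hY g hg, (hB g).symm⟩)
    (by rintro _ ⟨h, a, ha, rfl⟩ _ ⟨-, b, hb, rfl⟩; exact ⟨_, hYM a ha b hb, by simp⟩)
    (fun ⟨_, h⟩ => h.1)
  obtain ⟨x, rfl⟩ := sπ x
  have uY : ∀ a ∈ Y, ∀ b ∈ Y, π a = π x → π b = π x → a = b := fun a ha b hb h1 h2 => by
    by_contra c
    have h3 := hmin' M (fun g _ => hM g) _ ((hπ _ _).1 (h1.trans h2.symm)) (hYM a ha b hb)
      (by rwa [Ne, inv_mul_eq_one])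
    refine hx ⟨fun e => hne ⟨a, ha⟩ ?_, a, ha, h1⟩
    rw [← Subgroup.comap_map_eq_self (f := π) (H := M) (by simpa [π] using h3), e,
      Subgroup.comap_top]
  have uK : ∀ K, (∀ m ∈ N, α^[K] m = m → m = 1) → ∀ a b, π a = π b → A^[K] a = a → A^[K] b = b →
      a = b := fun K h a b e ha hb => by
    have := iter hA K a (a⁻¹ * b)
    rw [mul_inv_cancel_left, ha, hb, ← inv_mul_eq_iff_eq_mul] at this
    exact inv_mul_eq_one.1 (h _ ((hπ _ _).1 e) this.symm)
  have bad : ∀ z, π z = π x → (¬ ∀ k, A^[k] z = z → ∃ j, ∀ g, A^[k * p ^ j] g = g) →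
      ∃ K, A^[K] z = z ∧ (∀ g, π (A^[K] g) = π g) ∧ ∀ m ∈ N, α^[K] m = m → m = 1 := by
    intro z hz h
    push Not at h
    obtain ⟨k, h1, h2⟩ := h
    obtain ⟨j, hj⟩ := hk k (by rw [← hz, hBk, h1])
    have h3 : ∀ g, π (A^[k * p ^ j] g) = π g := fun g => by rw [← hBk, hj]
    refine ⟨k * p ^ j, by rw [Function.iterate_mul]; exact Function.iterate_fixed h1 _, h3,
      fun m hm e => ?_⟩
    by_contra c
    have h4 := hmin' (fx α (k * p ^ j)) (fun g _ => fx_inv α _ g) m hm e c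
    obtain ⟨i, hi⟩ := hG.exists_card_eq
    obtain ⟨g, hg⟩ := h2 (j + i)
    have h5 := (hπ _ _).1 (h3 g).symm
    have h6 : ∀ m : ℕ, (A^[k * p ^ j])^[m] g = g * (g⁻¹ * A^[k * p ^ j] g) ^ m := fun m => by
      induction m with
      | zero => simp
      | succ m ih =>
        have : α^[k * p ^ j] ((g⁻¹ * A^[k * p ^ j] g) ^ m) = (g⁻¹ * A^[k * p ^ j] g) ^ m :=
          h4 (pow_mem h5 m)
        rw [Function.iterate_succ_apply', ih, iter hA, this, pow_succ', ← mul_assoc,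
          mul_inv_cancel_left]
    apply hg
    rw [pow_add, ← mul_assoc, Function.iterate_mul, h6, ← hi, pow_card_eq_one', mul_one]
  obtain ⟨⟨m, hm⟩, m1⟩ := (Subgroup.ne_bot_iff_exists_ne_one).1 N1
  have hxm : π (x * m) = π x := ((hπ _ _).2 (by simpa)).symm
  have mix : ∀ a b, π a = π x → π b = π x → a ∈ Y →
      (¬ ∀ k, A^[k] b = b → ∃ j, ∀ g, A^[k * p ^ j] g = g) → a = b := fun a b ha hb h1 h2 => by
    obtain ⟨K, k1, k2, k3⟩ := bad b hb h2
    exact uK K k3 a b (ha.trans hb.symm) (uY _ (inv_iter hY K a h1) _ h1 ((k2 a).trans ha) ha) k1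
  by_contra c
  simp only [not_exists, not_and_or, not_not] at c
  refine m1 (Subtype.ext (mul_eq_left.1 (?_ : x * m = x)))
  rcases c x with h1 | h1 <;> rcases c (x * m) with h2 | h2
  · exact uY _ h2 _ h1 hxm rfl
  · exact (mix _ _ rfl hxm h1 h2).symm
  · exact mix _ _ hxm rfl h2 h1
  · obtain ⟨K, k1, k2, k3⟩ := bad _ rfl h1
    obtain ⟨L, l1, l2, l3⟩ := bad _ hxm h2
    refine uK L l3 _ _ hxm l1 (uK K k3 _ _ (l2 x) ?_ k1)
    rw [← Function.iterate_add_apply, add_comm, Function.iterate_add_apply, k1]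

lemma pgrp (p : ℕ) [hp : Fact p.Prime] (G : Type u) [Group G] [Finite G] (hG : IsPGroup p G)
    (α : G →* G) (A : G → G) (hs : Function.Surjective α) (hA : ∀ x g, A (x * g) = A x * α g)
    (o : ℕ) (ho : 0 < o) (h : ∀ g, A^[o] g = g) : ∃ x, ∀ k, A^[k] x = x → ∀ g, A^[k] g = g := by
  have e : ∀ k, (fun f : G → G => A ∘ f)^[k] id = A^[k] := fun k => by
    induction k with
    | zero => rfl
    | succ k ih => rw [Function.iterate_succ_apply', ih, Function.iterate_succ']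
  obtain ⟨c, hc⟩ : ∃ c, ∀ k, (∀ g, A^[k] g = g) ↔ c ∣ k :=
    ⟨Function.minimalPeriod (fun f : G → G => A ∘ f) id, fun k => by
      rw [← Function.isPeriodicPt_iff_minimalPeriod_dvd, Function.IsPeriodicPt, Function.IsFixedPt,
        e, funext_iff]; rfl⟩
  have c0 : 0 < c := Nat.pos_of_dvd_of_pos ((hc o).1 h) ho
  obtain ⟨x, hx, hk⟩ := core p _ G hG (Nat.lt_succ_self _) α A hs hA
    {g | p ∣ c ∧ A^[c / p] g = g} (fx α (c / p)) (fx_inv α _)
    (fun y hy => ⟨hy.1, by rw [← Function.iterate_succ_apply, Function.iterate_succ_apply', hy.2]⟩)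
    (fun a ha b hb => by
      have := iter hA (c / p) a (a⁻¹ * b)
      rw [mul_inv_cancel_left, ha.2, hb.2, ← inv_mul_eq_iff_eq_mul] at this
      exact this.symm)
    (fun ⟨a, ha⟩ e => by
      have := (hc (c / p)).1 fun g => by
        have h1 : α^[c / p] (a⁻¹ * g) = a⁻¹ * g := e.ge (Subgroup.mem_top (a⁻¹ * g))
        have := iter hA (c / p) a (a⁻¹ * g)
        rwa [mul_inv_cancel_left, ha.2, h1, mul_inv_cancel_left] at this
      exact absurd (Nat.le_of_dvd (Nat.div_pos (Nat.le_of_dvd c0 ha.1) hp.1.pos) this)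
        (Nat.div_lt_self c0 hp.1.one_lt).not_ge)
  refine ⟨x, fun k h1 => (hc k).2 ?_⟩
  obtain ⟨d, hd⟩ := Function.isPeriodicPt_iff_minimalPeriod_dvd.1 ((hc c).2 dvd_rfl x)
  obtain ⟨j, hj⟩ := hk _ (Function.iterate_minimalPeriod (f := A) (x := x))
  have h2 := Function.isPeriodicPt_iff_minimalPeriod_dvd.1 h1
  have m0 : 0 < Function.minimalPeriod A x := Nat.pos_of_dvd_of_pos ⟨d, hd⟩ c0
  rw [hc, hd, Nat.mul_dvd_mul_iff_left m0, Nat.dvd_prime_pow hp.1] at hj
  obtain ⟨i, -, rfl⟩ := hj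
  cases i with
  | zero => simpa [hd] using h2
  | succ i =>
    refine (hx ⟨⟨_, by rw [hd, pow_succ, ← mul_assoc, mul_comm]⟩,
      Function.isPeriodicPt_iff_minimalPeriod_dvd.2 ⟨p ^ i, ?_⟩⟩).elim
    rw [hd, pow_succ, ← mul_assoc, Nat.mul_div_cancel _ hp.1.pos]

lemma prod {ι : Type} [Fintype ι] (q : ι → ℕ) (hq : ∀ i, (q i).Prime) (qi : Function.Injective q)
    (H : ι → Type u) [∀ i, Group (H i)] [∀ i, Finite (H i)] (hH : ∀ i, IsPGroup (q i) (H i))
    (α : (∀ i, H i) →* ∀ i, H i) (A : (∀ i, H i) → ∀ i, H i) (hs : Function.Surjective α)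
    (hA : ∀ x g, A (x * g) = A x * α g) (o : ℕ) (ho : 0 < o) (h : ∀ g, A^[o] g = g) :
    ∃ x, ∀ k, A^[k] x = x → ∀ g, A^[k] g = g := by
  classical
  let β : ∀ i, H i →* H i := fun i =>
    (Pi.evalMonoidHom H i).comp (α.comp (MonoidHom.mulSingle H i))
  have hβ : ∀ i x, α x i = β i (x i) := fun i x => by
    have : (Pi.evalMonoidHom H i).comp α = (β i).comp (Pi.evalMonoidHom H i) := by
      refine MonoidHom.pi_ext fun j y => ?_
      by_cases e : j = i
      · subst e; simp [β]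
      have := Fact.mk (hq i)
      have := Fact.mk (hq j)
      obtain ⟨a, ha⟩ := hH j y
      obtain ⟨b, hb⟩ := hH i (α (Pi.mulSingle j y) i)
      have h1 : α (Pi.mulSingle j y) i ^ q j ^ a = 1 := by
        rw [← Pi.pow_apply, ← map_pow, ← Pi.mulSingle_pow, ha]; simp
      have := pow_gcd_eq_one.2 ⟨h1, hb⟩
      rw [Nat.coprime_pow_primes _ _ (hq j) (hq i) (qi.ne e), pow_one] at this
      simpa [Pi.mulSingle_eq_of_ne' e] using this
    exact DFunLike.congr_fun this x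
  have hB : ∀ i k x, (fun y => A 1 i * β i y)^[k] (x i) = A^[k] x i := fun i k x =>
    ((Function.Semiconj.iterate_right (f := fun x : ∀ i, H i => x i) (fun g => by
      nth_rewrite 1 [← one_mul g]; rw [hA, ← hβ]; rfl) k) x).symm
  have : ∀ i, ∃ x, ∀ k, (fun y => A 1 i * β i y)^[k] x = x →
      ∀ g, (fun y => A 1 i * β i y)^[k] g = g := fun i =>
    have := Fact.mk (hq i)
    pgrp (q i) (H i) (hH i) (β i) _ (fun y => by
      obtain ⟨x, hx⟩ := hs (Pi.mulSingle i y)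
      exact ⟨x i, by simp [← hβ, hx]⟩) (fun x g => by rw [map_mul, mul_assoc]) o ho fun g => by
        simpa [h] using hB i o (Pi.mulSingle i g)
  choose x hx using this
  exact ⟨x, fun k e g => funext fun i => by rw [← hB, hx i k (by rw [hB, e])]⟩

theorem result (G : Type u) [Group G] [Finite G] [Group.IsNilpotent G] (α : G ≃* G) (t : G)
    (A : Equiv.Perm G) (hA : ∀ x, A x = t * α x) :
    ∃ x, Function.minimalPeriod A x = orderOf A := by
  let e := Sylow.directProductOfNormal (G := G) fun P => inferInstance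
  have s : ∀ k x, (e.symm ∘ A ∘ e)^[k] x = e.symm (A^[k] (e x)) := fun k x => by
    rw [MulEquiv.eq_symm_apply]
    exact (Function.Semiconj.iterate_right (f := e) (fun g => by simp) k) x
  obtain ⟨x, hx⟩ := prod (fun p : (Nat.card G).primeFactors => p.1)
    (fun p => Nat.prime_of_mem_primeFactors p.2) Subtype.val_injective _
    (fun p g => by
      have := Fact.mk (Nat.prime_of_mem_primeFactors p.2)
      choose k hk using fun P : Sylow p G => P.isPGroup' (g P)
      obtain ⟨m, hm⟩ := (Set.finite_range k).bddAbove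
      refine ⟨m, funext fun P => ?_⟩
      obtain ⟨d, rfl⟩ := Nat.exists_eq_add_of_le (hm ⟨P, rfl⟩)
      rw [Pi.pow_apply, pow_add, pow_mul, hk, one_pow]; rfl)
    (e.trans (α.trans e.symm)).toMonoidHom (e.symm ∘ A ∘ e) (MulEquiv.surjective _)
    (fun x g => by simp [hA, mul_assoc]) (orderOf A) (orderOf_pos A) fun g => by
      rw [s, ← Equiv.Perm.coe_pow, pow_orderOf_eq_one]; simp
  refine ⟨e x, Nat.dvd_antisymm (Function.isPeriodicPt_iff_minimalPeriod_dvd.1 ?_)
    (orderOf_dvd_of_pow_eq_one (Equiv.ext fun g => ?_))⟩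
  · show A^[_] _ = _
    rw [← Equiv.Perm.coe_pow, pow_orderOf_eq_one]; rfl
  · have := hx (Function.minimalPeriod A (e x)) (by rw [s, Function.iterate_minimalPeriod]; simp)
      (e.symm g)
    rw [s] at this
    rw [Equiv.Perm.coe_pow]
    simpa using this

end Pool.Agent.Results.MP_27f3b7_al.Yes
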